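import Pool.Agent.Helper87.VM.Lib2
import Pool.Agent.Helper87.VM.Stmts

/-! (CEX): every finite group acts freely by coordinate permutations on a projective curve. -/

set_option autoImplicit false

namespace Pool.Agent.Helper87.VM

open MvPolynomial Pool.Agent.Helper48.VMRT

theorem cex_eval_perm {κ : Type} [Fintype κ] (σ : Equiv.Perm κ) (z : κ → ℂ) (j : ℕ) :
    eval (fun i => z (σ i)) (esymm κ ℂ j) = eval z (esymm κ ℂ j) := by
  have h := congrArg (eval z) (rename_esymm κ ℂ j σ)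
  rw [eval_rename] at h
  exact h

theorem cex_eval_smul {κ : Type} [Fintype κ] (a : ℂ) (z : κ → ℂ) (j : ℕ) :
    eval (a • z) (esymm κ ℂ j) = a ^ j * eval z (esymm κ ℂ j) := by
  simp only [esymm, map_sum, map_prod, eval_X, Pi.smul_apply, smul_eq_mul, Finset.mul_sum]
  refine Finset.sum_congr rfl fun t ht => ?_
  rw [Finset.prod_mul_distrib, Finset.prod_const, (Finset.mem_powersetCard.1 ht).2]

theorem cex_exists {κ : Type} [Fintype κ] (h3 : 3 ≤ Fintype.card κ) : ∃ z ∈ Bc κ, z ≠ 0 := by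
  obtain ⟨m, hm⟩ : ∃ m, Fintype.card κ = m + 1 := ⟨Fintype.card κ - 1, by omega⟩
  obtain ⟨e⟩ : Nonempty (κ ≃ Fin (m + 1)) := ⟨Fintype.equivFinOfCardEq hm⟩
  set ζ : ℂ := Complex.exp (2 * Real.pi * Complex.I / ((m + 1 : ℕ) : ℂ)) with hζ
  have hprim : IsPrimitiveRoot ζ (m + 1) := Complex.isPrimitiveRoot_exp (m + 1) (by omega)
  set z : κ → ℂ := fun i => ζ ^ ((e i : Fin (m + 1)) : ℕ) with hz
  refine ⟨z, ?_, ?_⟩
  · intro j hj1 hj2
    set σ : Equiv.Perm κ := (e.trans (finRotate (m + 1))).trans e.symm with hσ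
    have h1 : (fun i => z (σ i)) = ζ • z := by
      funext i
      simp only [hz, hσ, Equiv.trans_apply, Equiv.apply_symm_apply, Pi.smul_apply, smul_eq_mul]
      rw [finRotate_apply, ← pow_succ', Fin.val_add_eq_ite]
      rcases Nat.lt_or_ge (((e i : Fin (m + 1)) : ℕ) + 1) (m + 1) with hlt | hge
      · have hone : ((1 : Fin (m + 1)) : ℕ) = 1 := by
          rw [Fin.val_one']
          exact Nat.mod_eq_of_lt (by omega)
        rw [hone, if_neg (by omega)]
      · have hone : ((1 : Fin (m + 1)) : ℕ) = 1 := by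
          rw [Fin.val_one']
          exact Nat.mod_eq_of_lt (by omega)
        have hlt := (e i).isLt
        have heq : ((e i : Fin (m + 1)) : ℕ) + 1 = m + 1 := by omega
        rw [hone, if_pos (by omega), heq, hprim.pow_eq_one, Nat.sub_self, pow_zero]
    have h2 := cex_eval_perm σ z j
    rw [h1, cex_eval_smul] at h2
    have h3 : (ζ ^ j - 1) * eval z (esymm κ ℂ j) = 0 := by
      rw [sub_mul, one_mul, h2, sub_self]
    rcases mul_eq_zero.1 h3 with h4 | h4
    · exfalso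
      exact hprim.pow_ne_one_of_pos_of_lt (by omega) (by omega) (sub_eq_zero.1 h4)
    · exact h4
  · intro h0
    have h1 := congrFun h0 (e.symm 0)
    simp only [hz, Equiv.apply_symm_apply, Pi.zero_apply] at h1
    simp at h1

/-- the permutation action on `(Fin 2 × G) ⊕ Fin 2` -/
def cex_pi (G : Type) [Group G] : G →* Equiv.Perm ((Fin 2 × G) ⊕ Fin 2) where
  toFun g := Equiv.sumCongr (Equiv.prodCongr (Equiv.refl (Fin 2)) (Equiv.mulLeft g))
    (Equiv.refl (Fin 2))
  map_one' := by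
    ext x
    rcases x with ⟨a, b⟩ | x <;> simp
  map_mul' g h := by
    ext x
    rcases x with ⟨a, b⟩ | x <;> simp [mul_assoc]

theorem st_CEX (hCIRR : ST_CIRR) (hCUP : ST_CUP) (hCLO : ST_CLO) (hCFREE : ST_CFREE) : ST_CEX := by
  classical
  intro G _ _
  have h3 : 3 ≤ Fintype.card ((Fin 2 × G) ⊕ Fin 2) := by
    rw [Fintype.card_sum, Fintype.card_prod, Fintype.card_fin]
    have : 0 < Fintype.card G := Fintype.card_pos
    omega
  refine ⟨(Fin 2 × G) ⊕ Fin 2, inferInstance, inferInstance, cex_pi G, Bc ((Fin 2 × G) ⊕ Fin 2),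
    ⟨?_, ?_, ?_, ?_, ?_⟩, ?_, ?_⟩
  · refine zclosed_of_eqs {p | ∃ j, 1 ≤ j ∧ j + 2 ≤ Fintype.card ((Fin 2 × G) ⊕ Fin 2) ∧
      p = esymm ((Fin 2 × G) ⊕ Fin 2) ℂ j} fun x => ?_
    constructor
    · rintro hx p ⟨j, hj1, hj2, rfl⟩
      exact hx j hj1 hj2
    · intro hx j hj1 hj2
      exact hx _ ⟨j, hj1, hj2, rfl⟩
  · intro a x hx j hj1 hj2
    rw [cex_eval_smul, hx j hj1 hj2, mul_zero]
  · exact hCIRR _ h3
  · exact cex_exists h3
  · intro x hx hne
    exact le_antisymm (hCUP _ h3 x hx hne) (hCLO _ h3 x hx)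
  · intro g x hx j hj1 hj2
    have h1 : prep (cex_pi G) g x = fun i => x ((cex_pi G g)⁻¹ i) := rfl
    rw [h1]
    exact (cex_eval_perm ((cex_pi G g)⁻¹) x j).trans (hx j hj1 hj2)
  · intro g hg x hx hne a hax
    refine hCFREE G g hg x hx hne a ⟨fun e h => ?_, fun j => ?_⟩
    · have h1 := congrFun hax (Sum.inl (e, h))
      have h2 : (cex_pi G g)⁻¹ (Sum.inl (e, h)) = Sum.inl (e, g⁻¹ * h) := by
        rw [← map_inv]
        rfl
      have h4 : prep (cex_pi G) g x (Sum.inl (e, h)) = x ((cex_pi G g)⁻¹ (Sum.inl (e, h))) := rfl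
      rw [h4, h2] at h1
      exact h1
    · have h1 := congrFun hax (Sum.inr j)
      have h2 : (cex_pi G g)⁻¹ (Sum.inr j) = Sum.inr j := by
        rw [← map_inv]
        rfl
      have h4 : prep (cex_pi G) g x (Sum.inr j) = x ((cex_pi G g)⁻¹ (Sum.inr j)) := rfl
      rw [h4, h2] at h1
      exact h1

end Pool.Agent.Helper87.VM
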