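import Pool.Agent.Helper87.VM.Lib2
import Pool.Agent.Helper87.VM.Stmts

/-! (IMG): the image of a cone under forms without common zero is closed. -/

set_option autoImplicit false

namespace Pool.Agent.Helper87.VM

open MvPolynomial Pool.Agent.Helper48.VMRT

theorem st_IMG (h : ST_FIN) : ST_IMG := by
  intro κ μ _ _ S k f hk hS hc hf h0
  have hfin := h κ μ S k f hk hS hc hf h0
  set φ : MvPolynomial μ ℂ →+* (MvPolynomial κ ℂ ⧸ vanishingIdeal ℂ S) :=
    (Ideal.Quotient.mk (vanishingIdeal ℂ S)).comp (aeval (R := ℂ) f).toRingHom with hφ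
  rw [zclosed_iff]
  intro y hy
  have hmax : (vanishingIdeal ℂ {y} : Ideal (MvPolynomial μ ℂ)).IsMaximal :=
    isMaximal_iff_eq_vanishingIdeal_singleton.2 ⟨y, rfl⟩
  have hker : RingHom.ker φ ≤ (vanishingIdeal ℂ {y} : Ideal (MvPolynomial μ ℂ)) := by
    intro p hp
    rw [mem_vI]
    intro z hz
    rw [Set.mem_singleton_iff.1 hz]
    apply hy
    rw [vI_image, Ideal.mem_comap]
    rw [RingHom.mem_ker, hφ, RingHom.comp_apply, Ideal.Quotient.eq_zero_iff_mem] at hp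
    exact hp
  letI : Algebra (MvPolynomial μ ℂ) (MvPolynomial κ ℂ ⧸ vanishingIdeal ℂ S) := φ.toAlgebra
  haveI : Algebra.IsIntegral (MvPolynomial μ ℂ) (MvPolynomial κ ℂ ⧸ vanishingIdeal ℂ S) :=
    ⟨hfin.to_isIntegral⟩
  obtain ⟨Q, hQ, hQc⟩ := Ideal.exists_ideal_over_maximal_of_isIntegral
    (S := MvPolynomial κ ℂ ⧸ vanishingIdeal ℂ S) (vanishingIdeal ℂ {y} : Ideal (MvPolynomial μ ℂ)) hker
  have hQ' : (Q.comap (Ideal.Quotient.mk (vanishingIdeal ℂ S))).IsMaximal :=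
    Ideal.comap_isMaximal_of_surjective _ Ideal.Quotient.mk_surjective
  obtain ⟨x, hx⟩ := isMaximal_iff_eq_vanishingIdeal_singleton.1 hQ'
  have hxS : x ∈ S := by
    refine zclosed_iff.1 hS x fun p hp => ?_
    have h1 : p ∈ Q.comap (Ideal.Quotient.mk (vanishingIdeal ℂ S)) := by
      rw [Ideal.mem_comap, Ideal.Quotient.eq_zero_iff_mem.2 hp]
      exact Q.zero_mem
    rw [hx] at h1
    exact mem_vI.1 h1 x rfl
  refine ⟨x, hxS, ?_⟩
  funext i
  have h2 : (X i - C (y i) : MvPolynomial μ ℂ) ∈ (vanishingIdeal ℂ {y} : Ideal (MvPolynomial μ ℂ)) := by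
    rw [mem_vI]
    intro z hz
    rw [Set.mem_singleton_iff.1 hz]
    simp
  rw [← hQc, Ideal.mem_comap] at h2
  have h3 : (f i - C (y i) : MvPolynomial κ ℂ) ∈ Q.comap (Ideal.Quotient.mk (vanishingIdeal ℂ S)) := by
    rw [Ideal.mem_comap]
    have e : (algebraMap (MvPolynomial μ ℂ) (MvPolynomial κ ℂ ⧸ vanishingIdeal ℂ S)) (X i - C (y i)) =
        Ideal.Quotient.mk (vanishingIdeal ℂ S) (f i - C (y i)) := by
      change φ (X i - C (y i)) = _
      rw [hφ, RingHom.comp_apply]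
      congr 1
      simp [algebraMap_eq]
    rw [e] at h2
    exact h2
  rw [hx] at h3
  have h4 := mem_vI.1 h3 x rfl
  rw [map_sub, eval_C, sub_eq_zero] at h4
  exact h4

end Pool.Agent.Helper87.VM
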